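import Pool.Agent.R881.SAlphaG

/-!
MP_2df7e1_an, Q1: having all special alpha-limit sets closed is a generic property in `C⁰([0,1])`.
-/

namespace Pool.Agent.Results.MP_2df7e1_an.GenericClosed

open Set Filter Topology unitInterval

/-- `u` is a backward orbit branch of `x` under `f`: `u 0 = x` and `f (u (n+1)) = u n`. -/
def IsBackwardBranch (f : C(I, I)) (x : I) (u : ℕ → I) : Prop :=
  u 0 = x ∧ ∀ n, f (u (n + 1)) = u n

/-- The alpha-limit set of a branch: all limits of `u (φ k)` along some `φ k → ∞`. -/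
def alphaLimit (u : ℕ → I) : Set I :=
  {y | ∃ φ : ℕ → ℕ, Tendsto φ atTop atTop ∧ Tendsto (fun k => u (φ k)) atTop (𝓝 y)}

/-- The special alpha-limit set of `x`: the union of the alpha-limit sets of all its backward
orbit branches. -/
def specialAlphaLimit (x : I) (f : C(I, I)) : Set I :=
  {y | ∃ u, IsBackwardBranch f x u ∧ y ∈ alphaLimit u}

theorem specialAlphaLimit_eq (x : I) (f : C(I, I)) :
    specialAlphaLimit x f = Pool.Agent.R881.SA.sa f x := by
  ext y
  constructor
  · rintro ⟨u, hu, φ, hφ, hy⟩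
    exact ⟨u, hu, hy.mapClusterPt.of_comp hφ⟩
  · rintro ⟨u, hu, hy⟩
    obtain ⟨φ, hφ, hlim⟩ := MapClusterPt.tendsto_subseq hy
    exact ⟨u, hu, φ, hφ.tendsto_atTop, hlim⟩

/-- The set of `f ∈ C⁰([0,1])` all of whose special alpha-limit sets are closed is comeager
for the uniform metric. -/
theorem result :
    {f : C(I, I) | ∀ x : I, IsClosed (specialAlphaLimit x f)} ∈ residual C(I, I) := by
  have h := Pool.Agent.R881.SA.generic_closed
  refine Filter.mem_of_superset h ?_
  intro f hf x
  rw [specialAlphaLimit_eq]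
  exact hf x

end Pool.Agent.Results.MP_2df7e1_an.GenericClosed
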